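import Pool.Agent.H43.BZ.Stm

/-!
# Rotations of the surface measure, great spheres are null (task BZ-ROTNUL, helper113)
The rotation invariance is after the library module `Q93.KF3`.
-/

set_option autoImplicit false

open MeasureTheory Metric Set
open scoped RealInnerProductSpace ENNReal Pointwise

namespace Pool.Agent.H113.BZ

open Pool.Agent.H43.BZ

/-- A linear isometry as a map of the sphere. -/
noncomputable def rot {d : ℕ} (k : E d ≃ₗᵢ[ℝ] E d) (e : S d) : S d := ⟨k e, by simp⟩

theorem continuous_rot {d : ℕ} (k : E d ≃ₗᵢ[ℝ] E d) : Continuous (rot k : S d → S d) :=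
  (k.continuous.comp continuous_subtype_val).subtype_mk _

theorem surf_rot {d : ℕ} (k : E d ≃ₗᵢ[ℝ] E d) {A : Set (S d)} (hA : MeasurableSet A) :
    surf d (rot k ⁻¹' A) = surf d A := by
  unfold surf
  rw [Measure.toSphere_apply' _ hA, Measure.toSphere_apply' _ ((continuous_rot k).measurable hA)]
  have h1 : Ioo (0 : ℝ) 1 • ((fun e : S d => (e : E d)) '' (rot k ⁻¹' A)) =
      k ⁻¹' (Ioo (0 : ℝ) 1 • ((fun e : S d => (e : E d)) '' A)) := by
    ext y
    simp only [mem_preimage, Set.mem_smul]
    constructor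
    · rintro ⟨t, ht, _, ⟨e, he, rfl⟩, rfl⟩
      exact ⟨t, ht, k e, ⟨rot k e, he, rfl⟩, by simp⟩
    · rintro ⟨t, ht, _, ⟨e, he, rfl⟩, hy⟩
      refine ⟨t, ht, k.symm e, ⟨rot k.symm e, ?_, rfl⟩, ?_⟩
      · show rot k (rot k.symm e) ∈ A
        have h2 : rot k (rot k.symm e) = e := by
          apply Subtype.ext
          show k (k.symm e) = e
          simp
        rw [h2]; exact he
      · apply k.injective
        simp only [map_smul, LinearIsometryEquiv.apply_symm_apply]
        exact hy
  rw [h1, k.measurePreserving.measure_preimage_emb k.toHomeomorph.measurableEmbedding]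

theorem mp_rot {d : ℕ} (k : E d ≃ₗᵢ[ℝ] E d) : MeasurePreserving (rot k) (surf d) (surf d) := by
  refine ⟨(continuous_rot k).measurable, ?_⟩
  refine Measure.ext fun A hA => ?_
  rw [Measure.map_apply (continuous_rot k).measurable hA, surf_rot k hA]

theorem ROT : S_ROT := by
  intro d R h hh
  exact (mp_rot R).lintegral_comp hh

theorem NUL : S_NUL := by
  intro d _ e he
  have hm : MeasurableSet {σ : S d | ⟪e, (σ : E d)⟫ = 0} := by
    apply measurableSet_eq_fun
    · exact (continuous_const.inner continuous_subtype_val).measurable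
    · exact measurable_const
  unfold surf
  rw [Measure.toSphere_apply' _ hm]
  have hne : (ℝ ∙ e)ᗮ ≠ ⊤ := by
    intro h
    have h1 : e ∈ (ℝ ∙ e)ᗮ := by rw [h]; exact Submodule.mem_top
    rw [Submodule.mem_orthogonal_singleton_iff_inner_right] at h1
    exact he (inner_self_eq_zero.1 h1)
  have h0 : (volume : Measure (E d)) ((ℝ ∙ e)ᗮ : Submodule ℝ (E d)) = 0 :=
    Measure.addHaar_submodule _ _ hne
  have h2 : (volume : Measure (E d)) (Ioo (0 : ℝ) 1 •
      ((fun e : S d => (e : E d)) '' {σ : S d | ⟪e, (σ : E d)⟫ = 0})) = 0 := by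
    refine measure_mono_null ?_ h0
    intro y hy
    rw [Set.mem_smul] at hy
    obtain ⟨t, _, _, ⟨σ, hσ, rfl⟩, rfl⟩ := hy
    rw [SetLike.mem_coe, Submodule.mem_orthogonal_singleton_iff_inner_right]
    show ⟪e, t • (σ : E d)⟫ = 0
    rw [inner_smul_right, show ⟪e, (σ : E d)⟫ = 0 from hσ, mul_zero]
  rw [h2, mul_zero]

end Pool.Agent.H113.BZ
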